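import Pool.Agent.H97.SHL.Targets

/-!
Short lines at the scale of SETH (MP_c62aed_lc): the number of the sets which matter.
-/

set_option autoImplicit false

namespace Pool.Agent.H97.SHL

open Finset

/-- the number of the parts of the sets of a family -/
private theorem card_pa_le {X K : Type} [Fintype X] [DecidableEq X]
    (dc : Finset X → Finset (Finset X × K)) (hdc : ∀ Q, (dc Q).card ≤ Fintype.card X)
    (𝓠 : Finset (Finset X)) : (pa dc 𝓠).card ≤ 𝓠.card * Fintype.card X := by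
  unfold pa
  exact Finset.card_biUnion_le_card_mul _ _ _ fun Q _ => Finset.card_image_le.trans (hdc Q)

private theorem num_bound (b l P : ℕ) (hb : 1 ≤ b) (hP : 1 ≤ P) :
    (P + l + l * b * P + l * b * P * b * (l * b)) * b + 1 ≤
      5 * b ^ 4 * (P * (2 * l + 1) ^ 2) := by
  have hV : 1 ≤ (2 * l + 1) ^ 2 := Nat.one_le_pow _ _ (by omega)
  have hV1 : l ≤ (2 * l + 1) ^ 2 := by nlinarith [Nat.zero_le l]
  have hV2 : l * l ≤ (2 * l + 1) ^ 2 := by nlinarith [Nat.zero_le l]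
  have hb1 : b ≤ b ^ 4 := Nat.le_self_pow (by omega) b
  have hb2 : b * b ≤ b ^ 4 := by
    have : b ^ 2 ≤ b ^ 4 := Nat.pow_le_pow_right hb (by omega)
    rwa [pow_two] at this
  have hb4 : 1 ≤ b ^ 4 := Nat.one_le_pow _ _ hb
  generalize hVe : (2 * l + 1) ^ 2 = V at *
  generalize hbe : b ^ 4 = B at *
  have e1 : P * b ≤ B * (P * V) := by
    calc P * b = b * (P * 1) := by ring
      _ ≤ B * (P * V) := Nat.mul_le_mul hb1 (Nat.mul_le_mul le_rfl hV)
  have e2 : l * b ≤ B * (P * V) := by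
    calc l * b = b * (1 * l) := by ring
      _ ≤ B * (P * V) := Nat.mul_le_mul hb1 (Nat.mul_le_mul hP hV1)
  have e3 : l * b * P * b ≤ B * (P * V) := by
    calc l * b * P * b = (b * b) * (P * l) := by ring
      _ ≤ B * (P * V) := Nat.mul_le_mul hb2 (Nat.mul_le_mul le_rfl hV1)
  have e4 : l * b * P * b * (l * b) * b ≤ B * (P * V) := by
    calc l * b * P * b * (l * b) * b = b ^ 4 * (P * (l * l)) := by ring
      _ ≤ B * (P * V) := Nat.mul_le_mul hbe.le (Nat.mul_le_mul le_rfl hV2)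
  have e5 : 1 ≤ B * (P * V) := Nat.one_le_iff_ne_zero.2 (by positivity)
  calc (P + l + l * b * P + l * b * P * b * (l * b)) * b + 1
      = P * b + l * b + l * b * P * b + l * b * P * b * (l * b) * b + 1 := by ring
    _ ≤ B * (P * V) + B * (P * V) + B * (P * V) + B * (P * V) + B * (P * V) := by omega
    _ = 5 * B * (P * V) := by ring

/-- (FAM) the number of the sets which matter. -/
theorem pf_FAM (hBLM : T_BLM) : T_FAM := by
  intro X K _ _ dc 𝓛 T₀ hX hdc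
  have h1 : (bl 𝓛 T₀ {univ}).card ≤ (2 * 𝓛.card + 1) ^ T₀ := by
    have h := (hBLM X 𝓛 {univ} {univ} T₀ T₀ (Finset.Subset.refl _) le_rfl).2.2.2
    simpa using h
  have h2 : (pa dc 𝓛).card ≤ 𝓛.card * Fintype.card X := card_pa_le dc hdc 𝓛
  have h3 : (bl 𝓛 T₀ (pa dc 𝓛)).card ≤ 𝓛.card * Fintype.card X * (2 * 𝓛.card + 1) ^ T₀ :=
    ((hBLM X 𝓛 (pa dc 𝓛) (pa dc 𝓛) T₀ T₀ (Finset.Subset.refl _) le_rfl).2.2.2).trans
      (Nat.mul_le_mul h2 le_rfl)
  have h4 : (pa dc (bl 𝓛 T₀ (pa dc 𝓛))).card ≤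
      𝓛.card * Fintype.card X * (2 * 𝓛.card + 1) ^ T₀ * Fintype.card X :=
    (card_pa_le dc hdc _).trans (Nat.mul_le_mul h3 le_rfl)
  have h5 : (Finset.image₂ (fun P P' : Finset X => P ∩ P') (pa dc (bl 𝓛 T₀ (pa dc 𝓛)))
      (pa dc 𝓛)).card ≤ 𝓛.card * Fintype.card X * (2 * 𝓛.card + 1) ^ T₀ * Fintype.card X *
        (𝓛.card * Fintype.card X) :=
    (Finset.card_image₂_le _ _ _).trans (Nat.mul_le_mul h4 h2)
  have h6 : (fam dc 𝓛 T₀).card ≤ (2 * 𝓛.card + 1) ^ T₀ + 𝓛.card +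
      𝓛.card * Fintype.card X * (2 * 𝓛.card + 1) ^ T₀ +
      𝓛.card * Fintype.card X * (2 * 𝓛.card + 1) ^ T₀ * Fintype.card X *
        (𝓛.card * Fintype.card X) := by
    unfold fam
    refine (Finset.card_union_le _ _).trans (Nat.add_le_add ?_ h5)
    refine (Finset.card_union_le _ _).trans (Nat.add_le_add ?_ h3)
    exact (Finset.card_union_le _ _).trans (Nat.add_le_add h1 le_rfl)
  have h7 : (pa dc (fam dc 𝓛 T₀)).card ≤ ((2 * 𝓛.card + 1) ^ T₀ + 𝓛.card +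
      𝓛.card * Fintype.card X * (2 * 𝓛.card + 1) ^ T₀ +
      𝓛.card * Fintype.card X * (2 * 𝓛.card + 1) ^ T₀ * Fintype.card X *
        (𝓛.card * Fintype.card X)) * Fintype.card X :=
    (card_pa_le dc hdc _).trans (Nat.mul_le_mul h6 le_rfl)
  have h8 := num_bound (Fintype.card X) 𝓛.card ((2 * 𝓛.card + 1) ^ T₀) hX
    (Nat.one_le_pow _ _ (by omega))
  calc (insert univ (pa dc (fam dc 𝓛 T₀))).card ≤ (pa dc (fam dc 𝓛 T₀)).card + 1 :=
        Finset.card_insert_le _ _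
    _ ≤ _ := (Nat.add_le_add h7 le_rfl).trans (h8.trans (le_of_eq (by rw [pow_add])))

end Pool.Agent.H97.SHL
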